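import Mathlib
import Pool.Prelude.Def_H_3587d628
import Pool.Agent.MP_b0ee3d_lc.Defs
import Pool.Agent.Mg.F2e8011.G961bcc

set_option autoImplicit false

namespace Pool.Agent.Results.MP_b0ee3d_lc.MinLink

open Pool.Agent.MP_b0ee3d_lc

/-- Link-minimal sona maps on given dots are computable in polynomial time, the minimum depends
only on the number of dots, and the decision version is in P. -/
theorem result :
    ∃ (F : List (ℚ × ℚ) → ℕ × List (ℚ × ℚ)) (D : List (ℚ × ℚ) × ℕ → Bool),
      N68a2faeb.IsPolyTime F ∧ N68a2faeb.IsPolyTime D ∧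
      ∀ P : List (ℚ × ℚ), P.Nodup → P ≠ [] →
        (F P).1 = best P.length ∧ (F P).2.length = (F P).1 ∧ IsSona (toC P) (toC (F P).2) ∧
        (∀ q : List ℂ, IsSona (toC P) q → (F P).1 ≤ q.length) ∧
        ∀ k : ℕ, D (P, k) = true ↔ ∃ q : List ℂ, IsSona (toC P) q ∧ q.length ≤ k := by
  refine ⟨_, _, draw_poly, dec_poly, fun P hP hne => ?_⟩
  have low : ∀ q : List ℂ, IsSona (toC P) q → best P.length ≤ q.length := fun q hq => by
    simpa [toC] using hq.best_le (toC_nodup hP) (by simpa [toC] using hne)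
  refine ⟨rfl, length_draw P, draw_sona hP hne, low, fun k => ?_⟩
  rw [decide_eq_true_eq]
  exact ⟨fun h => ⟨_, draw_sona hP hne, by simpa [toC, length_draw] using h⟩,
    fun ⟨q, h1, h2⟩ => (low q h1).trans h2⟩

end Pool.Agent.Results.MP_b0ee3d_lc.MinLink
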