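import Mathlib
import Pool.Prelude.Def_H_3587d628
import Pool.Agent.MP_b0ee3d_lc.Defs3
import Pool.Agent.MP_b0ee3d_lc.H.All

set_option autoImplicit false

namespace Pool.Agent.Results.MP_b0ee3d_lc.StraightHard

open Pool.Agent.MP_b0ee3d_lc

/-- For curves that go straight through their crossings the decision version is NP-hard. -/
theorem result : ∀ L ∈ N68a2faeb.NP, ∃ f : List Bool → List (ℚ × ℚ) × ℕ,
    N68a2faeb.IsPolyTime f ∧ ∀ x, (f x).1.Nodup ∧ (f x).1 ≠ [] ∧
      (L x = true ↔ ∃ q : List ℂ, IsStraight (toC (f x).1) q ∧ links q ≤ (f x).2) ∧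
      (L x = true ↔ ∃ q : List ℂ, Sep (toC (f x).1) q ∧
        q.length + 2 * (f x).1.length ≤ (f x).2 + 2) :=
  H.main

end Pool.Agent.Results.MP_b0ee3d_lc.StraightHard
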